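import Pool.Agent.Q231.LFE.Sim
import Pool.Agent.Q231.LFE.Conv
import Pool.Agent.W937.FG.All
import Pool.Agent.W382.FG.P1

/-!
# Erasing rules add power to left forbidding E0L grammars

Some language generated by a left forbidding E0L grammar over a three-letter alphabet is, even
after removing the empty word, generated by no propagating left forbidding E0L grammar; it is not
even generated by a noncontracting grammar.
-/

namespace Pool.Agent.Results.MP_4c145a_lc.ErasingAddsPower

open Q231.LS Pool.Agent.W937.FG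

/-- LF-E0L ≠ LF-EP0L. -/
theorem result : ∃ G : LFE0L (Fin 3),
    (∀ H : LFE0L (Fin 3), H.Propagating → H.Lang ≠ G.Lang \ {[]}) ∧
    (∀ (A' : Type) [Finite A'] (f : Fin 3 → A'), Function.Injective f →
      ∀ H : LFE0L A', H.Propagating → H.Lang ≠ (List.map f) '' (G.Lang \ {[]})) ∧
    (∀ (N' : Type) [Finite N'] (S' : N') (P' : Set (GRule (Fin 3) N')), P'.Finite →
      (∀ ρ ∈ P', ρ.1.length ≤ ρ.2.1.length) →
      ∃ w : List (Fin 3), w ≠ [] ∧ ¬ (w ∈ G.Lang ↔ GGen P' S' w)) := by
  obtain ⟨N, fN, S, P, hP, -, h⟩ :=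
    final hG hF hC4 hTOPS hTOPC (hP2 Pool.Agent.W382.FG.P1.main)
  have : Finite P := hP
  have hlang := Pool.Agent.Q231.LFE.Sim.lang_eq P S
  have key : ∀ (A' : Type) [Finite A'] (f : Fin 3 → A'), Function.Injective f →
      ∀ H : LFE0L A', H.Propagating →
      H.Lang ≠ (List.map f) '' ((Pool.Agent.Q231.LFE.Sim.gram P S).Lang \ {[]}) := by
    intro A' _ f hf H hH he
    obtain ⟨N', fN', S', P', hP', hlen, hgen⟩ := Pool.Agent.Q231.LFE.Conv.main H hH f hf
    obtain ⟨w, hw, hne⟩ := h N' S' P' hP' hlen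
    apply hne
    rw [hgen w, he, hlang]
    constructor
    · intro hg
      exact ⟨w, ⟨hg, hw⟩, rfl⟩
    · rintro ⟨w', ⟨hg, -⟩, hww⟩
      have := (List.map_injective_iff.2 hf) hww
      rwa [this] at hg
  refine ⟨Pool.Agent.Q231.LFE.Sim.gram P S, ?_, key, ?_⟩
  · intro H hH he
    refine key (Fin 3) (fun x => x) (fun x y h => h) H hH ?_
    rw [List.map_id_fun', Set.image_id]
    exact he
  · intro N' _ S' P' hP' hlen
    obtain ⟨w, hw, hne⟩ := h N' S' P' hP' hlen
    exact ⟨w, hw, by rw [hlang]; exact hne⟩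

end Pool.Agent.Results.MP_4c145a_lc.ErasingAddsPower
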